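import Pool.Agent.MP_e6aac2_al.H44.Slow

namespace Pool.Agent.Results.MP_e6aac2_al.CeIncrements

open Pool.Agent.MP_e6aac2_al

/-- For a nondecreasing, not identically zero, polylogarithmically bounded `l` whose dyadic
increments are lower semicomputable, `2 ^ (n * l n)` has the growth type of the Følner function of
a finitely generated amenable self-similar group. -/
theorem result (D : ℕ) (l : ℕ → ℕ) (hm : Monotone l) (h1 : ∃ n, 1 ≤ l n)
    (hD : ∀ n, l n ≤ (Nat.log 2 n + 2) ^ D)
    (hc : LowerSemicomputable fun j => l (2 ^ (j + 1)) - l (2 ^ j)) :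
    IsSelfSimilarFolnerType fun n => 2 ^ (n * l n) :=
  H44.slow D l hm h1 hD hc

end Pool.Agent.Results.MP_e6aac2_al.CeIncrements
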