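import Pool.Agent.MP_e6aac2_al.Mg.H22_Final

namespace Pool.Agent.Results.MP_e6aac2_al.PolylogCharacterisation

open Pool.Agent.MP_e6aac2_al

/-- There is an exponent `D` such that a function of growth type `2 ^ (n l(n))`, with `l`
nondecreasing and eventually at least `(log n) ^ D`, has the growth type of the Følner function of
a finitely generated amenable self-similar group exactly when its growth type contains a lower
semicomputable nondecreasing function. -/
theorem result : ∃ D : ℕ, ∀ f l : ℕ → ℕ, Monotone l →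
    (∃ N : ℕ, ∀ n : ℕ, N ≤ n → Nat.log 2 n ^ D ≤ l n) → SameGrowth f (fun n => 2 ^ (n * l n)) →
      (IsSelfSimilarFolnerType f ↔
        ∃ g : ℕ → ℕ, Monotone g ∧ LowerSemicomputable g ∧ SameGrowth f g) := by
  obtain ⟨D, hD⟩ := H22.realise
  refine ⟨D, fun f l hl hN hf => ⟨necessary, fun ⟨g, h1, h2, h3⟩ => ?_⟩⟩
  obtain ⟨G, ⟨X, hX, H, S, a1, a2, a3, a4⟩, h4⟩ :=
    hD l hl hN g h1 h2 ⟨hf.2.trans h3.1, h3.2.trans hf.1⟩
  exact ⟨X, hX, H, S, a1, a2, a3, (hf.1.trans h4.1).trans a4.1, a4.2.trans (h4.2.trans hf.2)⟩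

end Pool.Agent.Results.MP_e6aac2_al.PolylogCharacterisation
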