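import Pool.Agent.MP_e6aac2_al.H11S.Ratio

namespace Pool.Agent.Results.MP_e6aac2_al.RatioNecessary

open Pool.Agent.MP_e6aac2_al

theorem result (f : ℕ → ℕ) (hf : IsSelfSimilarFolnerType f) :
    ∃ C : ℕ, 0 < C ∧ ∃ ρ : ℕ → ℕ → ℕ,
      (REPred fun p : (ℕ × ℕ) × ℕ => p.2 ≤ ρ p.1.1 p.1.2) ∧ ∀ m n, 1 ≤ m → m ≤ n →
        f n ≤ C * (ρ m n * f (C * m)) ∧ ρ m n * f m ≤ C * f (C * n) :=
  H11S.ratio hf

end Pool.Agent.Results.MP_e6aac2_al.RatioNecessary
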