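import Pool.Agent.MP_e6aac2_al.H11S.RealRF
import Pool.Agent.MP_e6aac2_al.H11S.Diag

namespace Pool.Agent.Results.MP_e6aac2_al.Separation

open Pool.Agent.MP_e6aac2_al

theorem result : ∃ g : ℕ → ℕ, Monotone g ∧ LowerSemicomputable g ∧
    (∀ n, 2 ^ n ≤ g n ∧ g n ≤ 2 ^ (n + n ^ 2)) ∧
    (∃ (M : Type) (_ : Group M) (S : Finset M), Subgroup.closure (S : Set M) = ⊤ ∧
      Group.ResiduallyFinite M ∧ (∀ n, ∃ E, IsFolner S n E) ∧ SameGrowth g (folner S)) ∧
    ¬ IsSelfSimilarFolnerType g := by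
  obtain ⟨τ, h0, hm, hτ, h1, h2⟩ := H11S.exists_tau
  have h3 : ∀ n, τ n ≤ n ^ 2 := fun n => by
    induction n with
    | zero => simp [h0]
    | succ n ih => have := hτ n; nlinarith
  exact ⟨fun n => 2 ^ (n + τ n), fun a b h => Nat.pow_le_pow_right (by norm_num)
    (add_le_add h (hm h)), h1, fun n => ⟨Nat.pow_le_pow_right (by norm_num) (Nat.le_add_right _ _),
    Nat.pow_le_pow_right (by norm_num) (Nat.add_le_add_left (h3 n) _)⟩,
    H11S.realise_tau_rf τ h0 hm hτ, h2⟩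

end Pool.Agent.Results.MP_e6aac2_al.Separation
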